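import Mathlib

/-!
# Upper densities of sets of primes (logarithmic weights)

`th G x` is the sum of `log p` over the primes `p ≤ x` with `G p`; `UD G e`: the upper density of
`G` is at most `e`; `Null G`: density zero.
-/

set_option autoImplicit false

namespace Pool.Agent.H71.FD

open Finset Filter

open Classical in
/-- the sum of `log p` over the primes `p ≤ x` with `G p` -/
noncomputable def th (G : ℕ → Prop) (x : ℕ) : ℝ :=
  ∑ p ∈ (Icc 1 x).filter (fun p => p.Prime ∧ G p), Real.log p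

open Classical in
/-- the number of primes `p ≤ x` with `G p` -/
noncomputable def cn (G : ℕ → Prop) (x : ℕ) : ℕ :=
  ((Icc 1 x).filter (fun p => p.Prime ∧ G p)).card

/-- upper density at most `e` -/
def UD (G : ℕ → Prop) (e : ℝ) : Prop := ∀ η, e < η → ∀ᶠ x : ℕ in atTop, th G x ≤ η * x

/-- density zero -/
def Null (G : ℕ → Prop) : Prop := ∀ e, 0 < e → ∀ᶠ x : ℕ in atTop, th G x ≤ e * x

theorem th_nonneg (G : ℕ → Prop) (x : ℕ) : 0 ≤ th G x :=
  Finset.sum_nonneg fun p _ => Real.log_natCast_nonneg p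

theorem th_mono {G G' : ℕ → Prop} (h : ∀ p, p.Prime → G p → G' p) (x : ℕ) : th G x ≤ th G' x := by
  classical
  unfold th
  refine Finset.sum_le_sum_of_subset_of_nonneg (fun p hp => ?_) fun p _ _ =>
    Real.log_natCast_nonneg p
  rw [mem_filter] at hp ⊢
  exact ⟨hp.1, hp.2.1, h p hp.2.1 hp.2.2⟩

theorem cn_mono {G G' : ℕ → Prop} (h : ∀ p, p.Prime → G p → G' p) (x : ℕ) : cn G x ≤ cn G' x := by
  classical
  unfold cn
  refine Finset.card_le_card fun p hp => ?_
  rw [mem_filter] at hp ⊢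
  exact ⟨hp.1, hp.2.1, h p hp.2.1 hp.2.2⟩

theorem th_union {G G' G'' : ℕ → Prop} (h : ∀ p, p.Prime → G'' p → G p ∨ G' p) (x : ℕ) :
    th G'' x ≤ th G x + th G' x := by
  classical
  unfold th
  rw [← Finset.sum_union_inter]
  refine le_add_of_le_of_nonneg (Finset.sum_le_sum_of_subset_of_nonneg (fun p hp => ?_) fun p _ _ =>
    Real.log_natCast_nonneg p) (Finset.sum_nonneg fun p _ => Real.log_natCast_nonneg p)
  rw [mem_filter] at hp
  rw [mem_union, mem_filter, mem_filter]
  rcases h p hp.2.1 hp.2.2 with h | h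
  · exact Or.inl ⟨hp.1, hp.2.1, h⟩
  · exact Or.inr ⟨hp.1, hp.2.1, h⟩

theorem th_or (G G' : ℕ → Prop) (x : ℕ) : th (fun p => G p ∨ G' p) x ≤ th G x + th G' x :=
  th_union (fun _ _ h => h) x

theorem cn_union {G G' G'' : ℕ → Prop} (h : ∀ p, p.Prime → G'' p → G p ∨ G' p) (x : ℕ) :
    cn G'' x ≤ cn G x + cn G' x := by
  classical
  unfold cn
  refine le_trans (Finset.card_le_card fun p hp => ?_) (Finset.card_union_le _ _)
  rw [mem_filter] at hp
  rw [mem_union, mem_filter, mem_filter]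
  rcases h p hp.2.1 hp.2.2 with h | h
  · exact Or.inl ⟨hp.1, hp.2.1, h⟩
  · exact Or.inr ⟨hp.1, hp.2.1, h⟩

theorem cn_or (G G' : ℕ → Prop) (x : ℕ) : cn (fun p => G p ∨ G' p) x ≤ cn G x + cn G' x :=
  cn_union (fun _ _ h => h) x

theorem lin_ge (C η : ℝ) (hη : 0 < η) : ∀ᶠ x : ℕ in atTop, C ≤ η * x := by
  filter_upwards [tendsto_natCast_atTop_atTop.eventually (eventually_ge_atTop (C / η))] with x hx
  rw [div_le_iff₀ hη] at hx
  linarith

theorem UD.mono {G G' : ℕ → Prop} {e e' : ℝ} (h : UD G' e) (hG : ∀ p, p.Prime → G p → G' p)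
    (he : e ≤ e') : UD G e' := by
  intro η hη
  filter_upwards [h η (lt_of_le_of_lt he hη)] with x hx
  exact (th_mono hG x).trans hx

theorem UD.or {G G' : ℕ → Prop} {e e' : ℝ} (h : UD G e) (h' : UD G' e') :
    UD (fun p => G p ∨ G' p) (e + e') := by
  intro η hη
  filter_upwards [h (e + (η - (e + e')) / 2) (by linarith),
    h' (e' + (η - (e + e')) / 2) (by linarith)] with x h1 h2
  refine (th_or G G' x).trans ((add_le_add h1 h2).trans (le_of_eq ?_))
  ring

/-- a set of bounded primes -/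
theorem UD_of_bounded {G : ℕ → Prop} (B : ℕ) (h : ∀ p, p.Prime → G p → p ≤ B) : UD G 0 := by
  classical
  intro η hη
  filter_upwards [lin_ge (∑ p ∈ Icc 1 B, Real.log p) η hη] with x hx
  refine le_trans ?_ hx
  unfold th
  refine Finset.sum_le_sum_of_subset_of_nonneg (fun p hp => ?_) fun p _ _ =>
    Real.log_natCast_nonneg p
  rw [mem_filter, mem_Icc] at hp
  rw [mem_Icc]
  exact ⟨hp.1.1, h p hp.2.1 hp.2.2⟩

theorem UD_nonneg {G : ℕ → Prop} {e : ℝ} (h : UD G e) : 0 ≤ e := by
  by_contra hcon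
  push Not at hcon
  have h1 := (h (e / 2) (by linarith)).and (eventually_gt_atTop 0)
  obtain ⟨x, h2, h3⟩ := h1.exists
  have h4 := th_nonneg G x
  have h5 : (0 : ℝ) < x := by exact_mod_cast h3
  nlinarith

theorem UD_biUnion {ι : Type*} (s : Finset ι) (G : ι → ℕ → Prop) (e : ι → ℝ)
    (h : ∀ i ∈ s, UD (G i) (e i)) : UD (fun p => ∃ i ∈ s, G i p) (∑ i ∈ s, e i) := by
  classical
  induction s using Finset.induction_on with
  | empty => exact UD_of_bounded 0 fun p _ hp => by simp at hp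
  | insert a s ha ih =>
    rw [Finset.sum_insert ha]
    refine UD.mono ((h a (mem_insert_self a s)).or (ih fun i hi => h i (mem_insert_of_mem hi)))
      (fun p _ hp => ?_) le_rfl
    obtain ⟨i, hi, hG⟩ := hp
    rcases mem_insert.1 hi with h1 | h1
    · subst h1; exact Or.inl hG
    · exact Or.inr ⟨i, h1, hG⟩

/-- if `G` has upper density more than `e` and `B` at most `e`, then infinitely many primes are in
`G` and not in `B` -/
theorem not_UD_exists {G B : ℕ → Prop} {e : ℝ} (hG : ¬ UD G e) (hB : UD B e) (N : ℕ) :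
    ∃ p, N < p ∧ p.Prime ∧ G p ∧ ¬ B p := by
  by_contra hcon
  push Not at hcon
  refine hG (UD.mono (hB.or (UD_of_bounded (G := fun p => p ≤ N) N fun p _ hp => hp))
    (fun p hp hGp => ?_) (by simp))
  by_contra h1
  push Not at h1
  exact h1.1 (hcon p h1.2 hp hGp)

theorem Null_iff {G : ℕ → Prop} : Null G ↔ UD G 0 := Iff.rfl

theorem Null_of_UD {G : ℕ → Prop} (h : ∀ e, 0 < e → UD G e) : Null G := by
  intro e he
  exact h (e / 2) (by linarith) e (by linarith)

theorem Null.mono {G G' : ℕ → Prop} (h : Null G') (hG : ∀ p, p.Prime → G p → G' p) : Null G :=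
  UD.mono (e := 0) (e' := 0) h hG le_rfl

theorem Null.or {G G' : ℕ → Prop} (h : Null G) (h' : Null G') : Null (fun p => G p ∨ G' p) :=
  UD.mono (UD.or (e := 0) (e' := 0) h h') (fun _ _ h => h) (by simp)

theorem Null_of_bounded {G : ℕ → Prop} (B : ℕ) (h : ∀ p, p.Prime → G p → p ≤ B) : Null G :=
  UD_of_bounded B h

/-- from windows `(c x, x]` to the upper density -/
theorem UD_of_window {G : ℕ → Prop} {c η : ℝ} (hc : 0 ≤ c)
    (h : ∀ ε, 0 < ε → ∀ᶠ x : ℕ in atTop, ∀ u : ℕ, (u : ℝ) ≤ c * x → (c * x : ℝ) < u + 1 →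
      th G x - th G u ≤ (η + ε) * x) : UD G (η + Real.log 4 * c) := by
  intro η' hη'
  filter_upwards [h (η' - (η + Real.log 4 * c)) (by linarith)] with x hx
  have h1 := hx ⌊c * x⌋₊ (Nat.floor_le (by positivity)) (Nat.lt_floor_add_one _)
  have h2 : th G ⌊c * x⌋₊ ≤ Real.log 4 * c * x := by
    classical
    have h3 : th G ⌊c * x⌋₊ ≤ Chebyshev.theta (c * x) := by
      unfold th Chebyshev.theta
      refine Finset.sum_le_sum_of_subset_of_nonneg (fun p hp => ?_) fun p _ _ =>
        Real.log_natCast_nonneg p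
      rw [mem_filter, mem_Icc] at hp
      rw [mem_filter, mem_Ioc]
      exact ⟨⟨hp.1.1, hp.1.2⟩, hp.2.1⟩
    refine h3.trans ((Chebyshev.theta_le_log4_mul_x (by positivity)).trans (le_of_eq ?_))
    ring
  linarith

open Classical in
theorem th_sub (G : ℕ → Prop) (u x : ℕ) (h : u ≤ x) :
    th G x - th G u = ∑ p ∈ (Ioc u x).filter (fun p => p.Prime ∧ G p), Real.log p := by
  unfold th
  have h1 : (Icc 1 x).filter (fun p => p.Prime ∧ G p)
      = (Icc 1 u).filter (fun p => p.Prime ∧ G p) ∪ (Ioc u x).filter (fun p => p.Prime ∧ G p) := by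
    ext p
    simp only [mem_filter, mem_union, mem_Icc, mem_Ioc]
    constructor
    · rintro ⟨⟨h2, h3⟩, h4⟩
      rcases le_or_gt p u with h5 | h5
      · exact Or.inl ⟨⟨h2, h5⟩, h4⟩
      · exact Or.inr ⟨⟨h5, h3⟩, h4⟩
    · rintro (⟨⟨h2, h3⟩, h4⟩ | ⟨⟨h2, h3⟩, h4⟩)
      · exact ⟨⟨h2, h3.trans h⟩, h4⟩
      · exact ⟨⟨by omega, h3⟩, h4⟩
  have h2 : Disjoint ((Icc 1 u).filter (fun p => p.Prime ∧ G p))
      ((Ioc u x).filter (fun p => p.Prime ∧ G p)) := by
    rw [Finset.disjoint_left]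
    intro p h3 h4
    have h5 := mem_Icc.1 (mem_filter.1 h3).1
    have h6 := mem_Ioc.1 (mem_filter.1 h4).1
    omega
  rw [h1, Finset.sum_union h2]
  ring

/-- from dyadic windows to the upper density -/
theorem UD_of_dyadic {G : ℕ → Prop} {c : ℝ} (hc : 0 ≤ c)
    (h : ∀ᶠ x : ℕ in atTop, th G (2 * x) - th G x ≤ c * x) : UD G c := by
  obtain ⟨x0, hx0⟩ := eventually_atTop.1 h
  have key : ∀ x : ℕ, th G x ≤ c * x + c * Nat.clog 2 x + th G (2 * x0 + 2) := by
    intro x
    induction x using Nat.strong_induction_on with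
    | _ x ih =>
      rcases le_or_gt x (2 * x0 + 2) with h1 | h1
      · have h2 : th G x ≤ th G (2 * x0 + 2) := by
          classical
          unfold th
          refine Finset.sum_le_sum_of_subset_of_nonneg (fun p hp => ?_) fun p _ _ =>
            Real.log_natCast_nonneg p
          rw [mem_filter, mem_Icc] at hp ⊢
          exact ⟨⟨hp.1.1, hp.1.2.trans h1⟩, hp.2⟩
        have h3 : 0 ≤ c * x + c * Nat.clog 2 x := by positivity
        linarith
      · have h2 := ih ((x + 1) / 2) (by omega)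
        have h3 := hx0 ((x + 1) / 2) (by omega)
        have h4 : th G x ≤ th G (2 * ((x + 1) / 2)) := by
          classical
          unfold th
          refine Finset.sum_le_sum_of_subset_of_nonneg (fun p hp => ?_) fun p _ _ =>
            Real.log_natCast_nonneg p
          rw [mem_filter, mem_Icc] at hp ⊢
          exact ⟨⟨hp.1.1, hp.1.2.trans (by omega)⟩, hp.2⟩
        have h5 : Nat.clog 2 x = Nat.clog 2 ((x + 1) / 2) + 1 := by
          rw [Nat.clog_of_two_le (by norm_num) (by omega)]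
          congr 2
        have h6 : (((x + 1) / 2 : ℕ) : ℝ) ≤ (x + 1) / 2 := by
          have := Nat.cast_div_le (α := ℝ) (m := x + 1) (n := 2)
          push_cast at this
          exact this
        rw [h5]
        push_cast
        nlinarith [mul_le_mul_of_nonneg_left h6 hc]
  intro η hη
  have hcl : ∀ x : ℕ, (Nat.clog 2 x : ℝ) ≤ Real.log x / Real.log 2 + 1 := by
    intro x
    rcases Nat.lt_or_ge x 2 with h1 | h1
    · have : Nat.clog 2 x = 0 := Nat.clog_of_right_le_one (by omega) 2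
      rw [this]
      have := Real.log_natCast_nonneg x
      have h2 : 0 < Real.log 2 := Real.log_pos (by norm_num)
      push_cast
      positivity
    · have h2 : 2 ^ (Nat.clog 2 x).pred < x := Nat.pow_pred_clog_lt_self (by norm_num) (by omega)
      have h3 : ((Nat.clog 2 x).pred : ℝ) * Real.log 2 ≤ Real.log x := by
        rw [← Real.log_pow]
        refine Real.log_le_log (by positivity) ?_
        exact_mod_cast h2.le
      have h4 : 0 < Real.log 2 := Real.log_pos (by norm_num)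
      have h5 : ((Nat.clog 2 x).pred : ℝ) ≤ Real.log x / Real.log 2 := by
        rwa [le_div_iff₀ h4]
      have h6 : Nat.clog 2 x ≤ (Nat.clog 2 x).pred + 1 := by
        have := Nat.le_succ_of_pred_le (le_refl (Nat.clog 2 x).pred)
        omega
      have h7 : (Nat.clog 2 x : ℝ) ≤ ((Nat.clog 2 x).pred : ℝ) + 1 := by exact_mod_cast h6
      linarith
  have hlog : ∀ᶠ x : ℕ in atTop, c * (Real.log x / Real.log 2 + 1) ≤ (η - c) / 2 * x := by
    have h4 : 0 < Real.log 2 := Real.log_pos (by norm_num)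
    have h5 : Tendsto (fun x : ℝ => Real.log x / x) atTop (nhds 0) := by
      have := Real.tendsto_pow_log_div_mul_add_atTop 1 0 1 (by norm_num)
      simpa using this
    have h6 : ∀ᶠ x : ℝ in atTop, Real.log x / x < (η - c) / 4 * Real.log 2 / (c + 1) :=
      h5.eventually_lt_const (by
        have : 0 < η - c := by linarith
        positivity)
    filter_upwards [tendsto_natCast_atTop_atTop.eventually h6,
      lin_ge c ((η - c) / 4) (by linarith), eventually_gt_atTop 0] with x h7 h8 h9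
    have h10 : (0 : ℝ) < x := by exact_mod_cast h9
    rw [div_lt_iff₀ h10, div_mul_eq_mul_div, lt_div_iff₀ (by positivity)] at h7
    have h11 : Real.log x * c ≤ Real.log x * (c + 1) := by
      have := Real.log_natCast_nonneg x
      nlinarith
    have h12 : c * (Real.log x / Real.log 2) ≤ (η - c) / 4 * x := by
      rw [← mul_div_assoc, div_le_iff₀ h4]
      nlinarith
    linarith
  filter_upwards [hlog, lin_ge (th G (2 * x0 + 2)) ((η - c) / 2) (by linarith)] with x h1 h2
  have h3 := key x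
  have h4 := mul_le_mul_of_nonneg_left (hcl x) hc
  linarith

theorem th_le_cn (G : ℕ → Prop) (x : ℕ) : th G x ≤ cn G x * Real.log x := by
  classical
  unfold th cn
  rw [← nsmul_eq_mul]
  refine Finset.sum_le_card_nsmul _ _ _ fun p hp => ?_
  rw [mem_filter, mem_Icc] at hp
  refine Real.log_le_log (by exact_mod_cast hp.2.1.pos) (by exact_mod_cast hp.1.2)

theorem cn_le_th (G : ℕ → Prop) (x : ℕ) (hx : 2 ≤ x) :
    (cn G x : ℝ) ≤ Real.sqrt x + 2 * th G x / Real.log x := by
  classical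
  have hx1 : (1 : ℝ) < x := by exact_mod_cast hx
  have hl : 0 < Real.log x := Real.log_pos hx1
  have hs : Real.log (Real.sqrt x) = Real.log x / 2 := Real.log_sqrt (by linarith)
  set A := (Icc 1 x).filter (fun p => p.Prime ∧ G p) with hA
  set A1 := A.filter (fun p : ℕ => (p : ℝ) ≤ Real.sqrt x)
  set A2 := A.filter (fun p : ℕ => ¬ (p : ℝ) ≤ Real.sqrt x)
  have h1 : A.card = A1.card + A2.card :=
    (Finset.card_filter_add_card_filter_not (s := A) (fun p : ℕ => (p : ℝ) ≤ Real.sqrt x)).symm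
  have h2 : (A1.card : ℝ) ≤ Real.sqrt x := by
    have h3 : A1 ⊆ Icc 1 ⌊Real.sqrt x⌋₊ := by
      intro p hp
      rw [mem_filter, hA, mem_filter, mem_Icc] at hp
      rw [mem_Icc]
      exact ⟨hp.1.1.1, Nat.le_floor hp.2⟩
    have h4 := Finset.card_le_card h3
    rw [Nat.card_Icc, Nat.add_sub_cancel] at h4
    exact le_trans (by exact_mod_cast h4) (Nat.floor_le (Real.sqrt_nonneg _))
  have h3 : (A2.card : ℝ) * (Real.log x / 2) ≤ th G x := by
    rw [← nsmul_eq_mul]
    refine le_trans (Finset.card_nsmul_le_sum A2 (fun p : ℕ => Real.log p) _ fun p hp => ?_) ?_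
    · rw [mem_filter] at hp
      rw [← hs]
      refine Real.log_le_log (Real.sqrt_pos.2 (by linarith)) (not_le.1 hp.2).le
    · unfold th
      refine Finset.sum_le_sum_of_subset_of_nonneg (filter_subset _ _) fun p _ _ =>
        Real.log_natCast_nonneg p
  have h4 : (A2.card : ℝ) ≤ 2 * th G x / Real.log x := by
    rw [le_div_iff₀ hl]
    linarith
  have h5 : (cn G x : ℝ) = A1.card + A2.card := by
    unfold cn
    rw [← hA, h1]
    push_cast
    rfl
  rw [h5]
  linarith

theorem sqrt_small (ε : ℝ) (hε : 0 < ε) : ∀ᶠ x : ℕ in atTop, Real.sqrt x ≤ ε * (x / Real.log x) := by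
  have h0 : ∀ᶠ x : ℝ in atTop, ‖Real.log x‖ ≤ ε * ‖x ^ (1 / 2 : ℝ)‖ :=
    (isLittleO_log_rpow_atTop (by norm_num : (0 : ℝ) < 1 / 2)).def (by positivity)
  filter_upwards [tendsto_natCast_atTop_atTop.eventually h0, eventually_ge_atTop 2] with x h1 h2
  have hx1 : (1 : ℝ) < x := by exact_mod_cast h2
  have hl : 0 < Real.log x := Real.log_pos hx1
  rw [← Real.sqrt_eq_rpow, Real.norm_eq_abs, Real.norm_eq_abs, abs_of_nonneg (Real.sqrt_nonneg _),
    abs_of_pos hl] at h1
  rw [← mul_div_assoc, le_div_iff₀ hl]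
  have h9 : Real.sqrt (x : ℝ) * Real.sqrt (x : ℝ) = x := Real.mul_self_sqrt (by linarith)
  have h10 : 0 ≤ Real.sqrt (x : ℝ) := Real.sqrt_nonneg _
  nlinarith [mul_le_mul_of_nonneg_left h1 h10]

/-- a set of density zero, counted -/
theorem Null.cn_le {G : ℕ → Prop} (h : Null G) (ε : ℝ) (hε : 0 < ε) :
    ∀ᶠ x : ℕ in atTop, (cn G x : ℝ) ≤ ε * (x / Real.log x) := by
  filter_upwards [h (ε / 4) (by linarith), sqrt_small (ε / 2) (by linarith), eventually_ge_atTop 2]
    with x h1 h2 h3
  have h4 := cn_le_th G x h3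
  have hx1 : (1 : ℝ) < x := by exact_mod_cast h3
  have hl : 0 < Real.log x := Real.log_pos hx1
  have h5 : 2 * th G x / Real.log x ≤ ε / 2 * (x / Real.log x) := by
    rw [← mul_div_assoc, div_le_div_iff_of_pos_right hl]
    linarith
  calc (cn G x : ℝ) ≤ Real.sqrt x + 2 * th G x / Real.log x := h4
    _ ≤ ε / 2 * (x / Real.log x) + ε / 2 * (x / Real.log x) := add_le_add h2 h5
    _ = ε * (x / Real.log x) := by ring

/-- lower bounds survive the removal of a set of density zero -/
theorem cn_sdiff {G B : ℕ → Prop} (c : ℝ) (hG : ∀ᶠ x : ℕ in atTop, c * (x / Real.log x) ≤ cn G x)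
    (hB : Null B) (ε : ℝ) (hε : 0 < ε) :
    ∀ᶠ x : ℕ in atTop, (c - ε) * (x / Real.log x) ≤ cn (fun p => G p ∧ ¬ B p) x := by
  filter_upwards [hG, hB.cn_le ε hε] with x h1 h2
  have h3 : cn G x ≤ cn (fun p => (G p ∧ ¬ B p) ∨ B p) x := cn_mono (fun p _ h => by tauto) x
  have h4 := h3.trans (cn_or _ _ x)
  have h5 : (cn G x : ℝ) ≤ cn (fun p => G p ∧ ¬ B p) x + cn B x := by exact_mod_cast h4
  linarith

theorem cn_of_th {G : ℕ → Prop} (c : ℝ) (hG : ∀ᶠ x : ℕ in atTop, c * x ≤ th G x) :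
    ∀ᶠ x : ℕ in atTop, c * (x / Real.log x) ≤ cn G x := by
  filter_upwards [hG, eventually_ge_atTop 2] with x h1 h2
  have hx1 : (1 : ℝ) < x := by exact_mod_cast h2
  have hl : 0 < Real.log x := Real.log_pos hx1
  rw [← mul_div_assoc, div_le_iff₀ hl]
  exact h1.trans (th_le_cn G x)

theorem infinite_of_cn {G : ℕ → Prop} {c : ℝ} (hc : 0 < c)
    (hG : ∃ᶠ x : ℕ in atTop, c * (x / Real.log x) ≤ cn G x) : {p : ℕ | p.Prime ∧ G p}.Infinite := by
  classical
  intro hfin
  have h1 : ∀ x, cn G x ≤ hfin.toFinset.card := by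
    intro x
    unfold cn
    refine Finset.card_le_card fun p hp => ?_
    rw [mem_filter] at hp
    rw [Set.Finite.mem_toFinset]
    exact hp.2
  have h2 : ∀ᶠ x : ℕ in atTop, (hfin.toFinset.card : ℝ) < c * (x / Real.log x) := by
    filter_upwards [sqrt_small (c / 2) (by linarith), (Real.tendsto_sqrt_atTop.comp
      tendsto_natCast_atTop_atTop).eventually_gt_atTop ((hfin.toFinset.card : ℝ) + 1)] with x h3 h4
    have h5 : (hfin.toFinset.card : ℝ) + 1 < Real.sqrt x := h4
    have h6 : (0 : ℝ) ≤ hfin.toFinset.card := by positivity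
    nlinarith
  obtain ⟨x, h3, h4⟩ := (hG.and_eventually h2).exists
  have h5 : (cn G x : ℝ) ≤ hfin.toFinset.card := by exact_mod_cast h1 x
  linarith

end Pool.Agent.H71.FD
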