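import Pool.Agent.H71.FD.Low
import Pool.Agent.H2.HF.LowC
import Pool.Agent.H80.HF.Main

/-!
# Densities in the form `#{p ≤ x prime, p ∈ S}` against `x / log x`

Conversions from `Null`, `cn` to the final statements (`DensityZero`, `LowerDensity`,
`UpperDensity`, unfolded), for `FirstCaseAllFields`.
-/

set_option autoImplicit false

namespace Pool.Agent.H71.FD

open Finset Filter
open Pool.Agent.H11.NW (Wf)

theorem ncard_mem (S : Set ℕ) (x : ℕ) :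
    {p : ℕ | p.Prime ∧ p ≤ x ∧ p ∈ S}.ncard = cn (fun p => p ∈ S) x :=
  (cn_eq_ncard (fun p => p ∈ S) x).symm

theorem le_ncard (S : Set ℕ) (G : ℕ → Prop) (h : ∀ p, p.Prime → G p → p ∈ S) (x : ℕ) :
    (cn G x : ℝ) ≤ ({p : ℕ | p.Prime ∧ p ≤ x ∧ p ∈ S}.ncard : ℝ) := by
  rw [ncard_mem]
  exact Nat.cast_le.2 (cn_mono h x)

/-- a null set has natural density zero among the primes -/
theorem densityZero_of_null (S : Set ℕ) (h : Null (fun p => p ∈ S)) :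
    ∀ ε : ℝ, 0 < ε → ∃ x₀ : ℕ, ∀ x : ℕ, x₀ ≤ x →
      ({p : ℕ | p.Prime ∧ p ≤ x ∧ p ∈ S}.ncard : ℝ) ≤ ε * (x / Real.log x) := by
  intro ε hε
  obtain ⟨x₀, hx₀⟩ := eventually_atTop.1 (h.cn_le ε hε)
  refine ⟨x₀, fun x hx => ?_⟩
  rw [ncard_mem]
  exact hx₀ x hx

theorem densityZero_of_null' (G : ℕ → Prop) (h : Null G) :
    ∀ ε : ℝ, 0 < ε → ∃ x₀ : ℕ, ∀ x : ℕ, x₀ ≤ x →
      ({p : ℕ | p.Prime ∧ p ≤ x ∧ p ∈ {p | G p}}.ncard : ℝ) ≤ ε * (x / Real.log x) :=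
  densityZero_of_null {p | G p} h

/-- lower density from the count of a subset, outside a null set -/
theorem lower_of_cn (S : Set ℕ) (G B : ℕ → Prop) (δ : ℝ)
    (hG : ∀ ε : ℝ, 0 < ε → ∀ᶠ x : ℕ in atTop, (δ - ε) * ((x : ℝ) / Real.log x) ≤ cn G x)
    (hB : Null B) (hS : ∀ p, p.Prime → G p → ¬ B p → p ∈ S) :
    ∀ ε : ℝ, 0 < ε → ∃ x₀ : ℕ, ∀ x : ℕ, x₀ ≤ x →
      (δ - ε) * (x / Real.log x) ≤ ({p : ℕ | p.Prime ∧ p ≤ x ∧ p ∈ S}.ncard : ℝ) := by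
  intro ε hε
  obtain ⟨x₀, hx₀⟩ := eventually_atTop.1 (cn_sdiff (δ - ε / 2) (hG (ε / 2) (by linarith)) hB
    (ε / 2) (by linarith))
  refine ⟨x₀, fun x hx => ?_⟩
  have h := hx₀ x hx
  refine le_trans (le_of_eq (by ring)) (h.trans (le_ncard S _ (fun p hp hg => ?_) x))
  exact hS p hp hg.1 hg.2

theorem lower_of_cn' (S : Set ℕ) (G B : ℕ → Prop) (δ : ℝ)
    (hG : ∀ᶠ x : ℕ in atTop, δ * ((x : ℝ) / Real.log x) ≤ cn G x)
    (hB : Null B) (hS : ∀ p, p.Prime → G p → ¬ B p → p ∈ S) :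
    ∀ ε : ℝ, 0 < ε → ∃ x₀ : ℕ, ∀ x : ℕ, x₀ ≤ x →
      (δ - ε) * (x / Real.log x) ≤ ({p : ℕ | p.Prime ∧ p ≤ x ∧ p ∈ S}.ncard : ℝ) := by
  intro ε hε
  obtain ⟨x₀, hx₀⟩ := eventually_atTop.1 (cn_sdiff δ hG hB ε hε)
  refine ⟨x₀, fun x hx => ?_⟩
  refine (hx₀ x hx).trans (le_ncard S _ (fun p hp hg => ?_) x)
  exact hS p hp hg.1 hg.2

/-- the non-Wieferich primes outside a null set have lower density at least `3/10` -/
theorem lower_nw (S : Set ℕ) (B : ℕ → Prop) (hB : Null B)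
    (hS : ∀ p, p.Prime → 5 ≤ p → ¬ p ^ 2 ∣ 2 ^ (p - 1) - 1 → ¬ B p → p ∈ S) :
    ∀ ε : ℝ, 0 < ε → ∃ x₀ : ℕ, ∀ x : ℕ, x₀ ≤ x →
      (3 / 10 - ε) * (x / Real.log x) ≤ ({p : ℕ | p.Prime ∧ p ≤ x ∧ p ∈ S}.ncard : ℝ) :=
  lower_of_cn' S (fun p => 5 ≤ p ∧ ¬ Wf p) B (3 / 10)
    (Pool.Agent.H2.HF.low_cn Pool.Agent.H80.HF.main_ineq) hB
    (fun p hp hg hb => hS p hp hg.1 hg.2 hb)

/-- one half of the primes, given by a quadratic character, outside a null set -/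
theorem lower_class (D : ℤ) (hD0 : D ≠ 0) (hD : ¬ IsSquare D) (e : ℤ) (he : e = 1 ∨ e = -1)
    (S : Set ℕ) (B : ℕ → Prop) (hB : Null B)
    (hS : ∀ p, p.Prime → jacobiSym D p = e → ¬ B p → p ∈ S) :
    ∀ ε : ℝ, 0 < ε → ∃ x₀ : ℕ, ∀ x : ℕ, x₀ ≤ x →
      (1 / 2 - ε) * (x / Real.log x) ≤ ({p : ℕ | p.Prime ∧ p ≤ x ∧ p ∈ S}.ncard : ℝ) :=
  lower_of_cn S (fun p => jacobiSym D p = e) B (1 / 2)
    (fun ε hε => class_lower D hD0 hD e he ε hε) hB hS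

/-- upper density in the form `x / log x` from `¬ UD` -/
theorem upper_of_not_UD (S : Set ℕ) (G : ℕ → Prop) (δ : ℝ)
    (hG : ∀ e : ℝ, e < δ → ¬ UD G e) (hS : ∀ p, p.Prime → G p → p ∈ S) :
    ∀ ε : ℝ, 0 < ε → ∀ x₀ : ℕ, ∃ x : ℕ, x₀ ≤ x ∧
      (δ - ε) * (x / Real.log x) ≤ ({p : ℕ | p.Prime ∧ p ≤ x ∧ p ∈ S}.ncard : ℝ) := by
  intro ε hε x₀
  have h1 := hG (δ - ε) (by linarith)
  unfold UD at h1
  push Not at h1
  obtain ⟨η, hη, h2⟩ := h1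
  obtain ⟨x, hx, h3⟩ := (Filter.frequently_atTop.1 h2) (x₀ + 3)
  refine ⟨x, by omega, ?_⟩
  have hx1 : (1 : ℝ) < x := by exact_mod_cast (by omega : 1 < x)
  have hlog : 0 < Real.log x := Real.log_pos hx1
  have h4 := th_le_cn G x
  have h5 : (δ - ε) * (x / Real.log x) ≤ cn G x := by
    rw [← mul_div_assoc, div_le_iff₀ hlog]
    have h6 : (0 : ℝ) ≤ x := by linarith
    nlinarith [mul_le_mul_of_nonneg_right hη.le h6]
  exact h5.trans (le_ncard S G hS x)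

end Pool.Agent.H71.FD
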