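import Pool.Agent.H71.FD.Dens
import Pool.Agent.H71.NB.Win

/-!
# Primes with a given value of a real character: density one half
-/

set_option autoImplicit false

namespace Pool.Agent.H71.FD

open Finset Filter
open Pool.Agent.H71.NB (win_chi win_one)

theorem jac_ne_zero (D : ℤ) (hD0 : D ≠ 0) (p : ℕ) (hp : p.Prime) (h : D.natAbs < p) :
    jacobiSym D p ≠ 0 := by
  have : NeZero p := ⟨hp.ne_zero⟩
  rw [Ne, jacobiSym.eq_zero_iff_not_coprime, not_not, Int.gcd_eq_natAbs, Int.natAbs_natCast]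
  rw [← Nat.Coprime, Nat.coprime_comm, hp.coprime_iff_not_dvd]
  intro hd
  have := Nat.le_of_dvd (Int.natAbs_pos.2 hD0) hd
  omega

open Classical in
/-- the primes of a window with `(D / p) = e`, `e = ± 1`; uniform in the window -/
theorem class_win (D : ℤ) (hD0 : D ≠ 0) (hD : ¬ IsSquare D) (e : ℤ) (he : e = 1 ∨ e = -1)
    (ε : ℝ) (hε : 0 < ε) :
    ∀ᶠ x : ℕ in atTop, ∀ u v : ℕ, D.natAbs + 2 ≤ u → u ≤ v → v ≤ x →
      |2 * ∑ p ∈ (Ioc u v).filter (fun p => p.Prime ∧ jacobiSym D p = e), Real.log p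
        - ((v : ℝ) - u)| ≤ ε * x := by
  filter_upwards [win_chi D hD0 hD (ε / 2) (by positivity), win_one (ε / 2) (by positivity)]
    with x h1 h2 u v hu huv hvx
  have b1 := h1 u v (by omega) huv hvx
  have b2 := h2 u v huv hvx
  have key : 2 * ∑ p ∈ (Ioc u v).filter (fun p => p.Prime ∧ jacobiSym D p = e), Real.log p
      = ∑ p ∈ (Ioc u v).filter Nat.Prime, Real.log p
        + (e : ℝ) * ∑ p ∈ (Ioc u v).filter Nat.Prime, (jacobiSym D p : ℝ) * Real.log p := by
    rw [← filter_filter, sum_filter, mul_sum, mul_sum, ← sum_add_distrib]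
    refine sum_congr rfl fun p hp => ?_
    obtain ⟨h5, h6⟩ := mem_filter.1 hp
    have h7 := (mem_Ioc.1 h5).1
    have hj : jacobiSym D p = 1 ∨ jacobiSym D p = -1 := by
      rcases jacobiSym.trichotomy D p with h | h | h
      · exact absurd h (jac_ne_zero D hD0 p h6 (by omega))
      · exact Or.inl h
      · exact Or.inr h
    rcases he with rfl | rfl <;> rcases hj with h | h <;> simp [h] <;> ring
  have he' : |(e : ℝ)| ≤ 1 := by rcases he with rfl | rfl <;> simp
  have h5 : |(e : ℝ) * ∑ p ∈ (Ioc u v).filter Nat.Prime, (jacobiSym D p : ℝ) * Real.log p|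
      ≤ ε / 2 * x := by
    rw [abs_mul]
    calc _ ≤ 1 * |∑ p ∈ (Ioc u v).filter Nat.Prime, (jacobiSym D p : ℝ) * Real.log p| :=
          mul_le_mul_of_nonneg_right he' (abs_nonneg _)
      _ ≤ ε / 2 * x := by rw [one_mul]; exact b1
  rw [abs_le] at h5 b2 ⊢
  constructor <;> linarith

/-- the primes with `(D / p) = e`, `e = ± 1` -/
theorem class_half (D : ℤ) (hD0 : D ≠ 0) (hD : ¬ IsSquare D) (e : ℤ) (he : e = 1 ∨ e = -1)
    (ε : ℝ) (hε : 0 < ε) :
    ∀ᶠ x : ℕ in atTop, |th (fun p => jacobiSym D p = e) x - x / 2| ≤ ε * x := by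
  classical
  set B : ℕ := D.natAbs + 2 with hB
  filter_upwards [class_win D hD0 hD e he (ε / 2) (by positivity),
    lin_ge (th (fun p => jacobiSym D p = e) B + B) (ε / 2) (by positivity),
    eventually_ge_atTop B] with x h1 h3 h4
  have b1 := h1 B x le_rfl h4 le_rfl
  have key := th_sub (fun p => jacobiSym D p = e) B x h4
  have h6 := th_nonneg (fun p => jacobiSym D p = e) B
  have h7 : (0 : ℝ) ≤ B := Nat.cast_nonneg B
  have h8 : (0 : ℝ) ≤ x := Nat.cast_nonneg x
  have key' : 2 * (th (fun p => jacobiSym D p = e) x - th (fun p => jacobiSym D p = e) B)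
      = 2 * ∑ p ∈ (Ioc B x).filter (fun p => p.Prime ∧ jacobiSym D p = e), Real.log p := by
    rw [key]; congr!
  rw [← key'] at b1
  rw [abs_le] at b1 ⊢
  constructor <;> nlinarith

/-- sums over layers of windows: the class `(D / p) = e` carries one half of the mass -/
theorem class_layers (D : ℤ) (hD0 : D ≠ 0) (hD : ¬ IsSquare D) (e : ℤ) (he : e = 1 ∨ e = -1)
    (ε : ℝ) (hε : 0 < ε) :
    ∀ᶠ x : ℕ in atTop, ∀ (n : ℕ) (u v : ℕ → ℕ),
      (∀ i < n, D.natAbs + 2 ≤ u i ∧ u i ≤ v i ∧ v i ≤ x) →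
      |2 * ∑ i ∈ range n, (th (fun p => jacobiSym D p = e) (v i)
          - th (fun p => jacobiSym D p = e) (u i))
        - ∑ i ∈ range n, ((v i : ℝ) - u i)| ≤ ε * x * n := by
  classical
  filter_upwards [class_win D hD0 hD e he ε hε] with x hx n u v h
  rw [mul_sum, ← sum_sub_distrib]
  refine (abs_sum_le_sum_abs _ _).trans ?_
  have h1 : ∀ i ∈ range n, |2 * (th (fun p => jacobiSym D p = e) (v i)
          - th (fun p => jacobiSym D p = e) (u i)) - ((v i : ℝ) - u i)| ≤ ε * x := by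
    intro i hi
    obtain ⟨h2, h3, h4⟩ := h i (mem_range.1 hi)
    have h5 := hx (u i) (v i) h2 h3 h4
    rw [th_sub _ _ _ h3]
    convert h5
  refine (sum_le_sum h1).trans (le_of_eq ?_)
  rw [sum_const, card_range, nsmul_eq_mul]
  ring

theorem class_lower (D : ℤ) (hD0 : D ≠ 0) (hD : ¬ IsSquare D) (e : ℤ) (he : e = 1 ∨ e = -1)
    (ε : ℝ) (hε : 0 < ε) :
    ∀ᶠ x : ℕ in atTop, (1 / 2 - ε) * (x / Real.log x) ≤ cn (fun p => jacobiSym D p = e) x := by
  refine cn_of_th (1 / 2 - ε) ?_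
  filter_upwards [class_half D hD0 hD e he ε hε] with x hx
  rw [abs_le] at hx
  linarith

/-- one half of the primes: `(D / p) = e`, outside a set of density zero -/
theorem class_sdiff (D : ℤ) (hD0 : D ≠ 0) (hD : ¬ IsSquare D) (e : ℤ) (he : e = 1 ∨ e = -1)
    (B : ℕ → Prop) (hB : Null B) (ε : ℝ) (hε : 0 < ε) :
    ∀ᶠ x : ℕ in atTop,
      (1 / 2 - ε) * (x / Real.log x) ≤ cn (fun p => jacobiSym D p = e ∧ ¬ B p) x := by
  filter_upwards [cn_sdiff (1 / 2 - ε / 2) (class_lower D hD0 hD e he (ε / 2) (by linarith)) hB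
    (ε / 2) (by linarith)] with x hx
  refine le_trans (le_of_eq ?_) hx
  ring

end Pool.Agent.H71.FD
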