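import Pool.Agent.H71.FD.Cls
import Pool.Agent.H73.QX.Fin3

/-!
# Non-Wieferich primes outside a set of density zero
-/

set_option autoImplicit false

namespace Pool.Agent.H71.FD

open Finset Filter
open Pool.Agent.H11.NW (Wf)

theorem cnt_eq_cn (G : ℕ → Prop) (x : ℕ) : Pool.Agent.H73.QX.cnt G x = cn G x := rfl

theorem cn_eq_ncard (G : ℕ → Prop) (x : ℕ) :
    cn G x = {p : ℕ | p.Prime ∧ p ≤ x ∧ G p}.ncard := by
  rw [← cnt_eq_cn]
  exact Pool.Agent.H73.QX.cnt_eq G x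

theorem nw_lower : ∀ᶠ x : ℕ in atTop,
    9 / 500 * ((x : ℝ) / Real.log x) ≤ cn (fun p => 5 ≤ p ∧ ¬ Wf p) x := by
  obtain ⟨x₀, h⟩ := Pool.Agent.H73.QX.low_NW
  filter_upwards [eventually_ge_atTop x₀] with x hx
  have h1 := h x hx
  rw [cnt_eq_cn] at h1
  rw [← mul_div_assoc]
  refine h1.trans (Nat.cast_le.2 (cn_mono (fun p _ hp => ?_) x))
  exact ⟨hp.1, hp.2.1⟩

/-- a positive proportion of the primes: non-Wieferich and outside a set of density zero -/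
theorem nw_sdiff (B : ℕ → Prop) (hB : Null B) (ε : ℝ) (hε : 0 < ε) :
    ∀ᶠ x : ℕ in atTop,
      (9 / 500 - ε) * ((x : ℝ) / Real.log x) ≤ cn (fun p => 5 ≤ p ∧ ¬ Wf p ∧ ¬ B p) x := by
  filter_upwards [cn_sdiff (9 / 500) nw_lower hB ε hε] with x hx
  refine hx.trans (Nat.cast_le.2 (cn_mono (fun p _ hp => ?_) x))
  exact ⟨hp.1.1, hp.1.2, hp.2⟩

end Pool.Agent.H71.FD
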